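import Pool.Agent.W125.PF.Inv
import Pool.Agent.W207.SW.SpecS

/-!
Project SW (owner helper207): all gaps imply zero.
-/

set_option autoImplicit false

open Filter Topology Set MeasureTheory
open scoped BigOperators FourierTransform ContDiff SchwartzMap

namespace Pool.Agent.W565.SW

open W207.PR (ct dt)
open W207.SW

/-! ### the kernel -/

theorem exists_kernel : ∃ k c : ℝ → ℝ, ContDiff ℝ ∞ k ∧ (∀ x, k (-x) = k x) ∧
    (∀ x, 2 ≤ |x| → k x = 0) ∧ Continuous c ∧
    (∀ y, ∫ a, k a * Real.cos (2 * Real.pi * a * y) = c y) ∧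
    (∃ K : ℝ, 0 < K ∧ ∀ y, |c y| * (1 + |y|) ^ 5 ≤ K) ∧ ∫ y, c y = 1 := by
  let B : ContDiffBump (0 : ℝ) := ⟨1, 2, one_pos, one_lt_two⟩
  have hsm : ContDiff ℝ ∞ (B : ℝ → ℝ) := B.contDiff
  obtain ⟨F, hF⟩ := Pool.Agent.W125.PF.exists_schwartz (B : ℝ → ℝ)
    (fun n => hsm.of_le (by exact_mod_cast le_top)) B.hasCompactSupport
  have hct : ∀ x, ct (B : ℝ → ℝ) x = ((𝓕 F : 𝓢(ℝ, ℂ)) x).re := by
    intro x
    rw [SchwartzMap.fourier_coe, Pool.Agent.W125.PF.re_fourier F (B : ℝ → ℝ) hF x]
    rfl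
  refine ⟨(B : ℝ → ℝ), ct (B : ℝ → ℝ), hsm, B.neg, ?_, ?_, fun y => rfl, ?_, ?_⟩
  · intro x hx
    apply B.zero_of_le_dist
    rw [dist_zero_right]
    exact hx
  · have : ct (B : ℝ → ℝ) = fun x => ((𝓕 F : 𝓢(ℝ, ℂ)) x).re := funext hct
    rw [this]
    exact Complex.continuous_re.comp (𝓕 F : 𝓢(ℝ, ℂ)).continuous
  · obtain ⟨K, hK, h⟩ := Pool.Agent.W125.PF.schwartz_decay (𝓕 F : 𝓢(ℝ, ℂ)) 5
    refine ⟨K, hK, fun y => ?_⟩
    rw [hct y]
    refine le_trans ?_ (h y)
    have := Complex.abs_re_le_norm ((𝓕 F : 𝓢(ℝ, ℂ)) y)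
    gcongr
  · have h1 := Pool.Agent.W125.PF.ct_inv (B : ℝ → ℝ) F hF 0
    simp only [mul_zero, Real.cos_zero, mul_one, neg_zero] at h1
    rw [h1]
    have h2 : B (0 : ℝ) = 1 := B.one_of_mem_closedBall (by simp [B])
    rw [h2]
    norm_num

/-! ### elementary facts on functions of compact support -/

theorem hcs {f : ℝ → ℝ} {β : ℝ} (h0 : ∀ x, β ≤ |x| → f x = 0) : HasCompactSupport f := by
  refine HasCompactSupport.intro (isCompact_Icc (a := -β) (b := β)) ?_
  intro x hx
  apply h0
  by_contra h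
  push Not at h
  exact hx (abs_le.1 h.le)

theorem hint {f : ℝ → ℝ} {β : ℝ} (hf : Continuous f) (h0 : ∀ x, β ≤ |x| → f x = 0) :
    Integrable f :=
  hf.integrable_of_hasCompactSupport (hcs h0)

theorem hint_mul {f g : ℝ → ℝ} {β : ℝ} (hf : Continuous f) (h0 : ∀ x, β ≤ |x| → f x = 0)
    (hg : Continuous g) : Integrable (fun x => f x * g x) :=
  hint (hf.mul hg) (fun x hx => by rw [h0 x hx, zero_mul])

/-! ### the transform of the product -/

section conv

variable {k c q W : ℝ → ℝ} {β : ℝ}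

theorem two_pi_ct (hq : Continuous q) (hq0 : ∀ x, β ≤ |x| → q x = 0)
    (hW : ∀ x, HasDerivAt W (q x) x) (hW0 : ∀ x, β ≤ |x| → W x = 0) (a : ℝ) :
    2 * Real.pi * a * ct W a = -∫ v, q v * Real.sin (2 * Real.pi * v * a) := by
  have hWc : Continuous W := continuous_iff_continuousAt.mpr (fun x => (hW x).continuousAt)
  have hv : ∀ x : ℝ, HasDerivAt (fun x : ℝ => Real.sin (2 * Real.pi * x * a))
      (2 * Real.pi * a * Real.cos (2 * Real.pi * x * a)) x := by
    intro x
    have h1 : HasDerivAt (fun x : ℝ => 2 * Real.pi * x * a) (2 * Real.pi * a) x := by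
      have := ((hasDerivAt_id x).const_mul (2 * Real.pi)).mul_const a
      simpa using this
    exact h1.sin.congr_deriv (by ring)
  have i1 : Integrable (fun x : ℝ => W x * (2 * Real.pi * a * Real.cos (2 * Real.pi * x * a))) :=
    hint_mul hWc hW0 (by fun_prop)
  have i2 : Integrable (fun x : ℝ => q x * Real.sin (2 * Real.pi * x * a)) :=
    hint_mul hq hq0 (by fun_prop)
  have i3 : Integrable (fun x : ℝ => W x * Real.sin (2 * Real.pi * x * a)) :=
    hint_mul hWc hW0 (by fun_prop)
  have := integral_mul_deriv_eq_deriv_mul_of_integrable (fun x _ => hW x) (fun x _ => hv x)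
    i1 i2 i3
  rw [← this]
  unfold ct
  rw [← integral_const_mul]
  refine integral_congr_ae (Eventually.of_forall fun v => ?_)
  simp only
  ring

theorem scale (hkc : ∀ y, ∫ a, k a * Real.cos (2 * Real.pi * a * y) = c y) {m : ℝ} (hm : 0 < m)
    (y : ℝ) : ∫ a, k (a / m) * Real.cos (2 * Real.pi * a * y) = m * c (m * y) := by
  rw [← hkc (m * y)]
  have h := Measure.integral_comp_div
    (fun b : ℝ => k b * Real.cos (2 * Real.pi * b * (m * y))) m
  rw [abs_of_pos hm, smul_eq_mul] at h
  rw [← h]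
  refine integral_congr_ae (Eventually.of_forall fun a => ?_)
  simp only
  congr 2
  field_simp

theorem dt_conv (hk : Continuous k) (hk0 : ∀ x, 2 ≤ |x| → k x = 0) (hc : Continuous c)
    (hkc : ∀ y, ∫ a, k a * Real.cos (2 * Real.pi * a * y) = c y) (hq : Continuous q)
    (hqo : ∀ x, q (-x) = -q x) (hq0 : ∀ x, β ≤ |x| → q x = 0)
    (hW : ∀ x, HasDerivAt W (q x) x) (hW0 : ∀ x, β ≤ |x| → W x = 0) {m : ℝ} (hm : 0 < m)
    (u : ℝ) : dt (fun a => k (a / m) * ct W a) u = ∫ s, q (u - s / m) * c s := by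
  have hkm : Continuous (fun a : ℝ => k (a / m)) := hk.comp (continuous_id.div_const m)
  have hkm0 : ∀ a : ℝ, 2 * m ≤ |a| → k (a / m) = 0 := by
    intro a ha
    apply hk0
    rw [abs_div, abs_of_pos hm, le_div_iff₀ hm]
    exact ha
  -- step 1
  have s1 : dt (fun a => k (a / m) * ct W a) u =
      ∫ a, ∫ v, k (a / m) * q v * (Real.sin (2 * Real.pi * v * a) *
        Real.sin (2 * Real.pi * a * u)) := by
    unfold dt
    rw [← integral_neg]
    refine integral_congr_ae (Eventually.of_forall fun a => ?_)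
    simp only
    have e1 : -(2 * Real.pi * a * (k (a / m) * ct W a) * Real.sin (2 * Real.pi * a * u)) =
        k (a / m) * Real.sin (2 * Real.pi * a * u) * -(2 * Real.pi * a * ct W a) := by ring
    rw [e1, two_pi_ct hq hq0 hW hW0 a, neg_neg, ← integral_const_mul]
    refine integral_congr_ae (Eventually.of_forall fun v => ?_)
    simp only
    ring
  -- step 2
  have hI : Integrable (Function.uncurry fun a v : ℝ => k (a / m) * q v *
      (Real.sin (2 * Real.pi * v * a) * Real.sin (2 * Real.pi * a * u)))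
      (volume.prod volume) := by
    refine Integrable.mul_bdd (c := 1) (Integrable.mul_prod (hint hkm hkm0) (hint hq hq0)) ?_ ?_
    · apply Continuous.aestronglyMeasurable
      fun_prop
    · refine Eventually.of_forall fun z => ?_
      rw [norm_mul]
      exact mul_le_one₀ (Real.abs_sin_le_one _) (norm_nonneg _) (Real.abs_sin_le_one _)
  rw [s1, integral_integral_swap hI]
  -- step 3
  have s3 : ∀ v : ℝ, ∫ a, k (a / m) * q v *
      (Real.sin (2 * Real.pi * v * a) * Real.sin (2 * Real.pi * a * u)) =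
      (q v * (m * c (m * (u - v))) - q v * (m * c (m * (u + v)))) / 2 := by
    intro v
    have i1 : Integrable (fun a => k (a / m) * Real.cos (2 * Real.pi * a * (u - v))) :=
      hint_mul hkm hkm0 (by fun_prop)
    have i2 : Integrable (fun a => k (a / m) * Real.cos (2 * Real.pi * a * (u + v))) :=
      hint_mul hkm hkm0 (by fun_prop)
    rw [← scale hkc hm (u - v), ← scale hkc hm (u + v), ← mul_sub, ← integral_sub i1 i2,
      mul_div_assoc, ← integral_div, ← integral_const_mul]
    refine integral_congr_ae (Eventually.of_forall fun a => ?_)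
    simp only
    have t1 : 2 * Real.pi * a * (u - v) = 2 * Real.pi * a * u - 2 * Real.pi * v * a := by ring
    have t2 : 2 * Real.pi * a * (u + v) = 2 * Real.pi * a * u + 2 * Real.pi * v * a := by ring
    rw [t1, t2, Real.cos_sub, Real.cos_add]
    ring
  simp only [s3]
  -- step 4
  have j1 : Integrable (fun v => q v * (m * c (m * (u - v)))) :=
    hint_mul hq hq0 (by fun_prop)
  have j2 : Integrable (fun v => q v * (m * c (m * (u + v)))) :=
    hint_mul hq hq0 (by fun_prop)
  rw [integral_div, integral_sub j1 j2]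
  have s4 : ∫ v, q v * (m * c (m * (u + v))) = -∫ v, q v * (m * c (m * (u - v))) := by
    rw [← integral_neg_eq_self (fun v => q v * (m * c (m * (u + v)))) volume, ← integral_neg]
    refine integral_congr_ae (Eventually.of_forall fun v => ?_)
    simp only
    rw [hqo, ← sub_eq_add_neg]
    ring
  rw [s4]
  -- step 5
  have s5 : ∫ v, q v * (m * c (m * (u - v))) = ∫ s, q (u - s / m) * c s := by
    rw [← integral_sub_left_eq_self (fun v => q v * (m * c (m * (u - v)))) volume u]
    have h := Measure.integral_comp_mul_left (fun s : ℝ => q (u - s / m) * c s) m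
    rw [abs_of_pos (inv_pos.mpr hm), smul_eq_mul, eq_inv_mul_iff_mul_eq₀ hm.ne'] at h
    rw [← h, ← integral_const_mul]
    refine integral_congr_ae (Eventually.of_forall fun y => ?_)
    simp only
    have e1 : u - (u - y) = y := by ring
    have e2 : m * y / m = y := by field_simp
    rw [e1, e2]
    ring
  rw [s5]
  ring

end conv

/-! ### bounds and limits -/

theorem weight_int {c : ℝ → ℝ} (hc : Continuous c) {K : ℝ}
    (hK : ∀ y, |c y| * (1 + |y|) ^ 5 ≤ K) : Integrable (fun s => (1 + |s|) ^ 3 * |c s|) := by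
  refine (integrable_inv_one_add_sq.const_mul K).mono' (by
    apply Continuous.aestronglyMeasurable
    fun_prop) (Eventually.of_forall fun s => ?_)
  have h1 := hK s
  have h2 : (0 : ℝ) ≤ |s| := abs_nonneg s
  have h3 : 1 + s ^ 2 ≤ (1 + |s|) ^ 2 := by
    have : s ^ 2 = |s| ^ 2 := (sq_abs s).symm
    rw [this]
    nlinarith
  rw [Real.norm_eq_abs, abs_of_nonneg (by positivity), ← div_eq_mul_inv,
    le_div_iff₀ (by positivity)]
  calc (1 + |s|) ^ 3 * |c s| * (1 + s ^ 2) ≤ (1 + |s|) ^ 3 * |c s| * (1 + |s|) ^ 2 := by gcongr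
    _ = |c s| * (1 + |s|) ^ 5 := by ring
    _ ≤ K := h1

theorem c_int {c : ℝ → ℝ} (hc : Continuous c) {K : ℝ}
    (hK : ∀ y, |c y| * (1 + |y|) ^ 5 ≤ K) : Integrable c := by
  refine (weight_int hc hK).mono' hc.aestronglyMeasurable (Eventually.of_forall fun s => ?_)
  have h2 : (0 : ℝ) ≤ |s| := abs_nonneg s
  rw [Real.norm_eq_abs]
  have h3 : (1 : ℝ) ≤ (1 + |s|) ^ 3 := one_le_pow₀ (by linarith)
  nlinarith [abs_nonneg (c s)]

theorem conv_bound {q c : ℝ → ℝ} (hc : Continuous c) {K M β : ℝ}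
    (hK : ∀ y, |c y| * (1 + |y|) ^ 5 ≤ K) (hM : ∀ x, |q x| ≤ M)
    (hβ : 0 ≤ β) (hq0 : ∀ x, β ≤ |x| → q x = 0) {m : ℝ} (hm : 1 ≤ m) (u : ℝ) :
    |∫ s, q (u - s / m) * c s| * (1 + |u|) ^ 3 ≤
      M * (1 + β) ^ 3 * ∫ s, (1 + |s|) ^ 3 * |c s| := by
  have hM0 : 0 ≤ M := (abs_nonneg _).trans (hM 0)
  have hm0 : 0 < m := by linarith
  have hu : 0 < (1 + |u|) ^ 3 := by positivity
  have h1 : |∫ s, q (u - s / m) * c s| ≤
      ∫ s, M * (1 + β) ^ 3 / (1 + |u|) ^ 3 * ((1 + |s|) ^ 3 * |c s|) := by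
    rw [← Real.norm_eq_abs]
    refine norm_integral_le_of_norm_le ((weight_int hc hK).const_mul _)
      (Eventually.of_forall fun s => ?_)
    rw [norm_mul, Real.norm_eq_abs, Real.norm_eq_abs]
    by_cases hs : β ≤ |u - s / m|
    · rw [hq0 _ hs]
      simp only [abs_zero, zero_mul]
      positivity
    · push Not at hs
      have h2 : |s / m| ≤ |s| := by
        rw [abs_div, abs_of_pos hm0]
        exact div_le_self (abs_nonneg _) hm
      have h3 : |u| ≤ |u - s / m| + |s / m| := by
        have := abs_add_le (u - s / m) (s / m)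
        simpa using this
      have h4 : 1 + |u| ≤ (1 + β) * (1 + |s|) := by
        nlinarith [abs_nonneg s, abs_nonneg u]
      have h5 : (1 + |u|) ^ 3 ≤ (1 + β) ^ 3 * (1 + |s|) ^ 3 := by
        rw [← mul_pow]
        exact pow_le_pow_left₀ (by positivity) h4 3
      have h6 : |q (u - s / m)| ≤ M * ((1 + β) ^ 3 * (1 + |s|) ^ 3) / (1 + |u|) ^ 3 := by
        rw [le_div_iff₀ hu]
        exact mul_le_mul (hM (u - s / m)) h5 hu.le hM0
      refine (mul_le_mul_of_nonneg_right h6 (abs_nonneg (c s))).trans (le_of_eq ?_)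
      ring
  rw [integral_const_mul] at h1
  refine (mul_le_mul_of_nonneg_right h1 hu.le).trans (le_of_eq ?_)
  field_simp

theorem conv_lim {q c : ℝ → ℝ} (hq : Continuous q) (hc : Continuous c) {K M : ℝ}
    (hK : ∀ y, |c y| * (1 + |y|) ^ 5 ≤ K) (hM : ∀ x, |q x| ≤ M) (h1 : ∫ y, c y = 1) (u : ℝ) :
    Tendsto (fun n : ℕ => ∫ s, q (u - s / ((n : ℝ) + 1)) * c s) atTop (𝓝 (q u)) := by
  have e : q u = ∫ s, q u * c s := by rw [integral_const_mul, h1, mul_one]
  rw [e]
  refine tendsto_integral_of_dominated_convergence (fun s => M * |c s|) (fun n => ?_)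
    ((c_int hc hK).abs.const_mul M) (fun n => Eventually.of_forall fun s => ?_)
    (Eventually.of_forall fun s => ?_)
  · apply Continuous.aestronglyMeasurable
    fun_prop
  · rw [norm_mul, Real.norm_eq_abs, Real.norm_eq_abs]
    have := hM (u - s / ((n : ℝ) + 1))
    gcongr
  · refine Tendsto.mul_const _ ?_
    have h2 : Tendsto (fun n : ℕ => u - s / ((n : ℝ) + 1)) atTop (𝓝 (u - 0)) := by
      refine tendsto_const_nhds.sub ?_
      have h3 : Tendsto (fun n : ℕ => s * (1 / ((n : ℝ) + 1))) atTop (𝓝 (s * 0)) :=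
        tendsto_one_div_add_atTop_nhds_zero_nat.const_mul s
      rw [mul_zero] at h3
      refine h3.congr (fun n => ?_)
      rw [mul_one_div]
    rw [sub_zero] at h2
    exact (hq.tendsto u).comp h2

/-! ### the primitive -/

theorem exists_prim {q : ℝ → ℝ} {β : ℝ} (_hβ : 0 < β) (hq : ContDiff ℝ ∞ q)
    (hqo : ∀ x, q (-x) = -q x) (hq0 : ∀ x, β ≤ |x| → q x = 0) :
    ∃ W : ℝ → ℝ, ContDiff ℝ ∞ W ∧ (∀ x, HasDerivAt W (q x) x) ∧ ∀ x, β ≤ |x| → W x = 0 := by
  have hc : Continuous q := hq.continuous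
  have hd : ∀ x, HasDerivAt (fun x => ∫ s in (-β)..x, q s) (q x) x := fun x =>
    (hc.integral_hasStrictDerivAt (-β) x).hasDerivAt
  have hii : ∀ a b : ℝ, IntervalIntegrable q volume a b := fun a b => hc.intervalIntegrable a b
  have hz : ∫ s in (-β)..β, q s = 0 := by
    have h1 := intervalIntegral.integral_comp_neg (f := q) (a := -β) (b := β)
    simp only [neg_neg, hqo, intervalIntegral.integral_neg] at h1
    linarith
  refine ⟨fun x => ∫ s in (-β)..x, q s, ?_, hd, ?_⟩
  · rw [contDiff_infty_iff_deriv]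
    refine ⟨fun x => (hd x).differentiableAt, ?_⟩
    have : deriv (fun x => ∫ s in (-β)..x, q s) = q := funext (fun x => (hd x).deriv)
    rw [this]
    exact hq
  · intro x hx
    rcases le_abs.mp hx with h | h
    · have h1 := intervalIntegral.integral_add_adjacent_intervals (hii (-β) β) (hii β x)
      show ∫ s in (-β)..x, q s = 0
      rw [← h1, hz, zero_add]
      have : ∫ s in β..x, q s = ∫ s in β..x, (0 : ℝ) := by
        refine intervalIntegral.integral_congr fun s hs => ?_
        rw [uIcc_of_le h] at hs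
        exact hq0 s (hs.1.trans (le_abs_self s))
      rw [this]
      simp
    · have : ∫ s in (-β)..x, q s = ∫ s in (-β)..x, (0 : ℝ) := by
        refine intervalIntegral.integral_congr fun s hs => ?_
        rw [uIcc_of_ge (by linarith)] at hs
        refine hq0 s ?_
        have h2 : β ≤ -s := by linarith [hs.2]
        exact h2.trans (neg_le_abs s)
      show ∫ s in (-β)..x, q s = 0
      rw [this]
      simp

/-- ALL. -/
theorem all : S_ALL := by
  intro O C0 hO hgap
  obtain ⟨hOm, hOb⟩ := hO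
  obtain ⟨k, c, hk, hke, hk0, hc, hkc, ⟨K, hK0, hK⟩, hc1⟩ := exists_kernel
  have hloc : LocallyIntegrableOn O (Ioi (0 : ℝ)) volume := by
    rw [locallyIntegrableOn_iff (isOpen_Ioi.isLocallyClosed)]
    intro k hk hkc
    have h1 : IntegrableOn (fun u : ℝ => |C0| * (1 + |u|)) k volume :=
      (by fun_prop : Continuous (fun u : ℝ => |C0| * (1 + |u|))).continuousOn.integrableOn_compact hkc
    refine Integrable.mono' h1 hOm.aestronglyMeasurable ?_
    have h2 : ∀ᵐ u ∂(volume.restrict k), |O u| ≤ C0 * (1 + u) :=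
      ae_restrict_of_ae_restrict_of_subset hk hOb
    filter_upwards [h2] with u hu
    rw [Real.norm_eq_abs]
    refine hu.trans ((le_abs_self _).trans ?_)
    rw [abs_mul]
    have : |1 + u| ≤ 1 + |u| := by
      have := abs_add_le 1 u
      simpa using this
    gcongr
  have main := isOpen_Ioi.ae_eq_zero_of_integral_contDiff_smul_eq_zero hloc ?_
  · rw [ae_restrict_iff' measurableSet_Ioi]
    exact main
  intro w hw hws hwt
  have hwneg : ∀ x, x ≤ 0 → w x = 0 := by
    intro x hx
    apply image_eq_zero_of_notMem_tsupport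
    intro h
    have := hwt h
    rw [mem_Ioi] at this
    linarith
  obtain ⟨β, hβ, hwβ⟩ := hws.exists_pos_le_norm
  -- the odd extension
  obtain ⟨q, hqdef⟩ : ∃ q : ℝ → ℝ, ∀ x, q x = w x - w (-x) := ⟨_, fun x => rfl⟩
  have hqf : q = fun x => w x - w (-x) := funext hqdef
  have hqs : ContDiff ℝ ∞ q := by
    rw [hqf]
    exact hw.sub (hw.comp contDiff_neg)
  have hqo : ∀ x, q (-x) = -q x := by
    intro x
    rw [hqdef, hqdef, neg_neg]
    ring
  have hq0 : ∀ x, β ≤ |x| → q x = 0 := by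
    intro x hx
    rw [hqdef, hwβ x hx, hwβ (-x) (by rwa [norm_neg]), sub_zero]
  have hqw : ∀ x, 0 < x → q x = w x := by
    intro x hx
    rw [hqdef, hwneg (-x) (by linarith), sub_zero]
  obtain ⟨M, hM⟩ : ∃ M, ∀ x, |q x| ≤ M := by
    obtain ⟨M, hM⟩ := (hcs hq0).exists_bound_of_continuous hqs.continuous
    exact ⟨M, hM⟩
  obtain ⟨W, hWs, hWd, hW0⟩ := exists_prim hβ hqs hqo hq0
  -- smoothness of `ct W`
  obtain ⟨F, hF⟩ := Pool.Agent.W125.PF.exists_schwartz W
    (fun n => hWs.of_le (by exact_mod_cast le_top)) (hcs hW0)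
  have hct : ct W = fun x => ((𝓕 F : 𝓢(ℝ, ℂ)) x).re := by
    funext x
    rw [SchwartzMap.fourier_coe, Pool.Agent.W125.PF.re_fourier F W hF x]
    rfl
  have hcts : ContDiff ℝ ∞ (ct W) := by
    rw [hct]
    exact Complex.reCLM.contDiff.comp ((𝓕 F : 𝓢(ℝ, ℂ)).smooth ⊤)
  have hcte : ∀ x, ct W (-x) = ct W x := by
    intro x
    unfold ct
    refine integral_congr_ae (Eventually.of_forall fun v => ?_)
    simp only [mul_neg, Real.cos_neg]
  -- the gap
  have hJ : ∀ n : ℕ, ∫ u in Ioi (0 : ℝ),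
      (∫ s, q (u - s / ((n : ℝ) + 1)) * c s) * O u = 0 := by
    intro n
    have hn : (0 : ℝ) < (n : ℝ) + 1 := by positivity
    have ht : TstL (2 * ((n : ℝ) + 1) + 1) (fun a => k (a / ((n : ℝ) + 1)) * ct W a) := by
      refine ⟨fun j => ?_, fun x => ?_, 2 * ((n : ℝ) + 1), by positivity, by linarith,
        fun x hx => ?_⟩
      · have h1 : ContDiff ℝ ∞ (fun a : ℝ => k (a / ((n : ℝ) + 1)) * ct W a) :=
          (hk.comp (contDiff_id.div_const _)).mul hcts
        exact h1.of_le (by exact_mod_cast le_top)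
      · rw [neg_div, hke, hcte]
      · rw [hk0, zero_mul]
        rw [abs_div, abs_of_pos hn, le_div_iff₀ hn]
        exact hx
    have h2 := hgap _ (by positivity) _ ht
    refine Eq.trans ?_ h2
    refine integral_congr_ae (Eventually.of_forall fun u => ?_)
    simp only
    rw [dt_conv hk.continuous hk0 hc hkc hqs.continuous hqo hq0 hWd hW0 hn u]
  -- the limit
  set A : ℝ := M * (1 + β) ^ 3 * ∫ s, (1 + |s|) ^ 3 * |c s| with hA
  have hlim : Tendsto (fun n : ℕ => ∫ u in Ioi (0 : ℝ),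
      (∫ s, q (u - s / ((n : ℝ) + 1)) * c s) * O u) atTop
      (𝓝 (∫ u in Ioi (0 : ℝ), q u * O u)) := by
    refine tendsto_integral_of_dominated_convergence (fun u => A * |C0| * (1 + u ^ 2)⁻¹)
      (fun n => ?_) (integrable_inv_one_add_sq.const_mul _).integrableOn (fun n => ?_)
      (Eventually.of_forall fun u => ?_)
    · refine AEStronglyMeasurable.mul ?_ hOm.aestronglyMeasurable
      have hcont : Continuous (Function.uncurry fun u s : ℝ =>
          q (u - s / ((n : ℝ) + 1)) * c s) := by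
        have := hqs.continuous
        unfold Function.uncurry
        fun_prop
      exact (hcont.stronglyMeasurable.integral_prod_right).aestronglyMeasurable
    · have h1 := (ae_restrict_iff' measurableSet_Ioi).mp hOb
      rw [ae_restrict_iff' measurableSet_Ioi]
      filter_upwards [h1] with u hu hu0
      have hu1 := hu hu0
      rw [mem_Ioi] at hu0
      have hb := conv_bound hc hK hM hβ.le hq0 (m := (n : ℝ) + 1)
        (by have : (0 : ℝ) ≤ n := Nat.cast_nonneg n
            linarith) u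
      rw [← hA, abs_of_pos hu0] at hb
      rw [norm_mul, Real.norm_eq_abs, Real.norm_eq_abs]
      set J := |∫ s, q (u - s / ((n : ℝ) + 1)) * c s| with hJdef
      have hJ0 : 0 ≤ J := abs_nonneg _
      have h3 : |O u| ≤ |C0| * (1 + u) :=
        hu1.trans (mul_le_mul_of_nonneg_right (le_abs_self _) (by linarith))
      rw [← div_eq_mul_inv, le_div_iff₀ (by positivity)]
      have h4 : 1 + u ^ 2 ≤ (1 + u) ^ 2 := by nlinarith
      calc J * |O u| * (1 + u ^ 2) ≤ J * (|C0| * (1 + u)) * (1 + u) ^ 2 :=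
            mul_le_mul (mul_le_mul_of_nonneg_left h3 hJ0) h4 (by positivity) (by positivity)
        _ = |C0| * (J * (1 + u) ^ 3) := by ring
        _ ≤ |C0| * A := mul_le_mul_of_nonneg_left hb (abs_nonneg _)
        _ = A * |C0| := mul_comm _ _
    · exact (conv_lim hqs.continuous hc hK hM hc1 u).mul_const _
  have hz : ∫ u in Ioi (0 : ℝ), q u * O u = 0 := by
    refine tendsto_nhds_unique hlim ?_
    simp only [hJ]
    exact tendsto_const_nhds
  have e1 : ∫ x in Ioi (0 : ℝ), w x • O x = ∫ x, w x • O x := by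
    refine setIntegral_eq_integral_of_forall_compl_eq_zero fun x hx => ?_
    rw [mem_Ioi, not_lt] at hx
    rw [hwneg x hx, zero_smul]
  rw [← e1]
  refine Eq.trans ?_ hz
  refine setIntegral_congr_fun measurableSet_Ioi fun x hx => ?_
  simp only [smul_eq_mul]
  rw [hqw x hx]

end Pool.Agent.W565.SW
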